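import Pool.Agent.Lib.NV5.DomX
import Pool.Agent.Lib.NV5.X_KXA

/-! Project ze: the mixed density, and the bridge between the two forms of the norm of a
section. -/

open scoped Classical Topology ContDiff ENNReal ComplexOrder Matrix
open Set MeasureTheory Complex Filter

noncomputable section

namespace Pool.Agent.Lib.ZE45

open Pool.Agent.Lib.HS32 Pool.Agent.Lib.DM
open Pool.Agent.Lib.DX (ta mx)

variable {n : ℕ} {M : Mf n} {H T S Θ : M.Fam (Mat n)} {σ : M.X → ℝ}

theorem bridge [M.Cpt] (hH : M.Met H) (h : DX.Sg M Θ σ) : K63.Sg M σ Θ := by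
  have hp := K63.pk_form h.sm h.clo.toForm
  have hd := (mHES n M).2.2.1 σ h.sm
  obtain ⟨-, -, op, v0, -⟩ := mMU n M H hH
  have dn : Dense {x | σ x ≠ 0} := Measure.dense_of_ae (μ := M.mu H) (by
    rw [ae_iff]
    simpa using h.nul H hH)
  have q : M.All fun e z => σ (e.symm z) • K63.pk M σ Θ e z = M.ds σ σ e z := fun e he z hz => by
    beta_reduce
    rw [← h.eq e he z hz, K63.pk, smul_add, smul_smul, pow_two]
  refine ⟨h.sm, h.nn, ?_, h.clo, K63.le0.2 fun e he z hz => ?_, q⟩
  · by_contra c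
    push Not at c
    have := h.nul H hH
    simp only [c, ofPred_true] at this
    simp [Measure.real, this] at v0
  · have f : ∃ᶠ x in 𝓝 (e.symm z), σ x ≠ 0 := mem_closure_iff_frequently.1 (dn _)
    rw [← e.symm.map_nhds_eq hz, frequently_map] at f
    refine K63.psd_closed.mem_of_frequently_of_tendsto
      ((f.and_eventually (e.open_target.mem_nhds hz)).mono fun w hw => ?_)
      (hp.sm e he z hz).continuousAt
    have p : 0 < σ (e.symm w) := (h.nn _).lt_of_ne' hw.1
    have := Mf.psd_rsmul (K63.le0.1 hd.2 e he w hw.2) (inv_pos.2 p).le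
    rwa [← q e he w hw.2, smul_smul, inv_mul_cancel₀ p.ne', one_smul] at this

theorem ta_inv (hH : M.Met H) (hT : M.Ten T) (hS : M.Ten S) :
    M.Inv fun e z => ((T e z).adjugate * S e z).trace / (H e z).det := by
  intro e he e' he' x hx hx'
  have j := ((mTR n M).2.1 e he e' he' x hx hx').2.1
  have jh : (M.J e e' x)ᴴ.det ≠ 0 := by rw [Matrix.det_conjTranspose]; exact star_ne_zero.2 j
  beta_reduce
  rw [hT.cmp e he e' he' x hx hx', hS.cmp e he e' he' x hx hx', hH.cmp e he e' he' x hx hx']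
  generalize M.J e e' x = J at j jh
  have k : ((Jᴴ * T e (e x) * J).adjugate * (Jᴴ * S e (e x) * J)).trace =
      Jᴴ.det * J.det * ((T e (e x)).adjugate * S e (e x)).trace := by
    rw [Matrix.adjugate_mul_distrib, Matrix.adjugate_mul_distrib, Matrix.trace_mul_comm,
      mul_assoc _ J, ← mul_assoc J, Matrix.mul_adjugate, Matrix.trace_mul_comm, mul_assoc,
      mul_assoc, ← mul_assoc (Matrix.adjugate Jᴴ), Matrix.adjugate_mul]
    simp only [Matrix.smul_mul, Matrix.mul_smul, one_mul, Matrix.trace_smul, smul_eq_mul]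
    ring
  have := hH.det_ne e he _ (e.map_source hx)
  rw [k, Matrix.det_mul, Matrix.det_mul]
  field_simp

theorem ta_rep (hH : M.Met H) (hT : M.Ten T) (hS : M.Ten S) :
    M.Rep (ta M H T S) fun e z => (((T e z).adjugate * S e z).trace / (H e z).det).re :=
  fun e he z hz => congrArg re ((ta_inv hH hT hS).rep e he z hz)

theorem ta_met (hH : M.Met H) (hT : M.Met T) (x : M.X) :
    ta M H T S x = M.dq H T x * M.tr T S x := by
  have t := hT.ev_det x
  rw [K63.dq_tr hH, ← K63.adj_tr, ta, HS76.det_eq_re (hH.ev_pos x).posSemidef, div_ofReal_re,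
    ofReal_re, HS76.det_eq_re (hT.ev_pos x).posSemidef, div_ofReal_re, ofReal_re,
    mul_div_cancel₀ _ (HS76.det_re_pos (hT.ev_pos x)).ne']

theorem mx_met [M.Cpt] (hH : M.Met H) (hT : M.Met T) :
    mx M H T S = ∫ x, M.tr T S x ∂M.mu T := by
  rw [((mMU n M H hH).2.2.2.2.2.2 T hT).2.1, mx]
  simp only [ta_met hH hT]

end Pool.Agent.Lib.ZE45
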